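import Mathlib

/-!
# From boxes to heights (helper77)

If all but `C H ^ (n - δ)` of the integral vectors of the box of side `H` have a certificate of size `(log H) ^ A'`,
then all but `C' H ^ (n - δ')` of them have a certificate of size `(log ht) ^ A`, `A > A'`, in terms of their own height.
-/

set_option autoImplicit false

namespace Pool.Agent.Zk77.Sko

open Finset Filter

/-- the height of an integral vector -/
def hgt {ι : Type} [Fintype ι] (z : ι → ℤ) : ℕ := univ.sup (fun i => (z i).natAbs)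

lemma hgt_le {ι : Type} [Fintype ι] (z : ι → ℤ) (H : ℕ) : hgt z ≤ H ↔ ∀ i, |z i| ≤ (H : ℤ) := by
  unfold hgt
  rw [Finset.sup_le_iff]
  constructor
  · intro h i
    have := h i (mem_univ i)
    rw [Int.abs_eq_natAbs]
    exact_mod_cast this
  · intro h i _
    have := h i
    rw [Int.abs_eq_natAbs] at this
    exact_mod_cast this

lemma fin_hgt {ι : Type} [Fintype ι] (H : ℕ) (Q : (ι → ℤ) → Prop) :
    {z : ι → ℤ | (∀ i, |z i| ≤ (H : ℤ)) ∧ Q z}.Finite := by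
  classical
  refine ((Fintype.piFinset fun _ : ι => Finset.Icc (-(H : ℤ)) H).finite_toSet).subset ?_
  rintro z ⟨hz, -⟩
  rw [Finset.mem_coe, Fintype.mem_piFinset]
  intro i
  have := abs_le.1 (hz i)
  exact Finset.mem_Icc.2 this

lemma ev_log (A A' : ℝ) (hA0 : 0 ≤ A') (hA : A' < A) :
    ∃ H₁ : ℕ, ∀ H h : ℕ, H₁ ≤ H → H < 2 * h → Real.log H ^ A' ≤ Real.log h ^ A := by
  have h1 : ∀ᶠ t : ℝ in atTop, (t + Real.log 2) ^ A' ≤ t ^ A := by
    have h2 : Tendsto (fun t : ℝ => t ^ (A - A')) atTop atTop := tendsto_rpow_atTop (by linarith)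
    filter_upwards [h2.eventually_ge_atTop ((2 : ℝ) ^ A'), eventually_ge_atTop (1 : ℝ)] with t ht ht1
    have h3 : Real.log 2 ≤ 1 := by
      have := Real.log_two_lt_d9
      linarith
    have h4 : 0 ≤ Real.log 2 := Real.log_nonneg (by norm_num)
    calc (t + Real.log 2) ^ A' ≤ (2 * t) ^ A' := Real.rpow_le_rpow (by linarith) (by linarith) hA0
      _ = 2 ^ A' * t ^ A' := Real.mul_rpow (by norm_num) (by linarith)
      _ ≤ t ^ (A - A') * t ^ A' := mul_le_mul_of_nonneg_right ht (by positivity)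
      _ = t ^ A := by
          rw [← Real.rpow_add (by linarith)]
          congr 1
          ring
  obtain ⟨t₀, ht₀⟩ := eventually_atTop.1 h1
  have h5 : Tendsto (fun n : ℕ => Real.log (n : ℝ)) atTop atTop :=
    Real.tendsto_log_atTop.comp tendsto_natCast_atTop_atTop
  obtain ⟨n₀, hn₀⟩ := eventually_atTop.1 (h5.eventually_ge_atTop t₀)
  refine ⟨2 * (n₀ + 1), fun H h hH hh => ?_⟩
  have hh1 : n₀ + 1 ≤ h := by omega
  have hh0 : (0 : ℝ) < h := by exact_mod_cast (by omega : 0 < h)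
  have hH0 : (0 : ℝ) < H := by exact_mod_cast (by omega : 0 < H)
  have h6 := hn₀ h (by omega)
  have h7 := ht₀ _ h6
  refine le_trans ?_ h7
  have h8 : Real.log H ≤ Real.log h + Real.log 2 := by
    rw [← Real.log_mul hh0.ne' (by norm_num)]
    apply Real.log_le_log hH0
    have : (H : ℝ) < 2 * h := by exact_mod_cast hh
    linarith
  have h9 : 0 ≤ Real.log H := Real.log_nonneg (by exact_mod_cast (by omega : 1 ≤ H))
  exact Real.rpow_le_rpow h9 h8 hA0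

/-- **From boxes to heights.** -/
theorem count_hgt {ι : Type} [Fintype ι] [Nonempty ι] (Ce : ℝ → (ι → ℤ) → Prop)
    (hCe : ∀ Y Y' z, Y ≤ Y' → Ce Y z → Ce Y' z) (A A' : ℝ) (hA0 : 0 ≤ A') (hA : A' < A)
    (δ C₁ : ℝ) (hδ : 0 < δ) (hδ1 : δ ≤ 1 / 2) (H₀ : ℕ)
    (h : ∀ H : ℕ, H₀ ≤ H → ({z : ι → ℤ | (∀ i, |z i| ≤ (H : ℤ)) ∧ ¬ Ce (Real.log H ^ A') z}.ncard : ℝ) ≤
      C₁ * (H : ℝ) ^ ((Fintype.card ι : ℝ) - δ)) :
    ∃ C : ℝ, ∀ H : ℕ, 1 ≤ H → ({z : ι → ℤ | (∀ i, |z i| ≤ (H : ℤ)) ∧ ¬ Ce (Real.log (hgt z) ^ A) z}.ncard : ℝ) ≤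
      C * (H : ℝ) ^ ((Fintype.card ι : ℝ) - δ) := by
  obtain ⟨H₁, hlog⟩ := ev_log A A' hA0 hA
  obtain ⟨s, hs⟩ : ∃ s : ℝ, s = (Fintype.card ι : ℝ) - δ := ⟨_, rfl⟩
  rw [← hs] at h ⊢
  have hn1 : (1 : ℝ) ≤ Fintype.card ι := by exact_mod_cast Fintype.card_pos
  have hs0 : 1 / 2 ≤ s := by rw [hs]; linarith
  obtain ⟨F, hF⟩ : ∃ F : ℕ → ℝ, ∀ H, F H =
      ({z : ι → ℤ | (∀ i, |z i| ≤ (H : ℤ)) ∧ ¬ Ce (Real.log (hgt z) ^ A) z}.ncard : ℝ) := ⟨_, fun _ => rfl⟩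
  obtain ⟨C₂, hC₂⟩ : ∃ C₂ : ℝ, C₂ = 4 * |C₁| + F (H₀ + H₁ + 1) := ⟨_, rfl⟩
  have hF0 : ∀ H, 0 ≤ F H := fun H => by rw [hF]; exact Nat.cast_nonneg _
  have hC₂0 : 0 ≤ C₂ := by
    rw [hC₂]
    have := hF0 (H₀ + H₁ + 1)
    positivity
  have hmono : ∀ H H', H ≤ H' → F H ≤ F H' := by
    intro H H' hHH
    rw [hF, hF, Nat.cast_le]
    refine Set.ncard_le_ncard ?_ (fin_hgt _ _)
    rintro z ⟨h1, h2⟩
    exact ⟨fun i => (h1 i).trans (by exact_mod_cast hHH), h2⟩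
  have hhalf : (1 / 2 : ℝ) ^ s ≤ 3 / 4 := by
    calc (1 / 2 : ℝ) ^ s ≤ (1 / 2 : ℝ) ^ (1 / 2 : ℝ) :=
          Real.rpow_le_rpow_of_exponent_ge (by norm_num) (by norm_num) hs0
      _ ≤ 3 / 4 := by
          rw [← Real.sqrt_eq_rpow, Real.sqrt_le_left (by norm_num)]
          norm_num
  refine ⟨C₂, fun H hH => ?_⟩
  rw [← hF]
  induction H using Nat.strong_induction_on with
  | _ H ih =>
    have hHr : (1 : ℝ) ≤ H := by exact_mod_cast hH
    have hHs : (1 : ℝ) ≤ (H : ℝ) ^ s := Real.one_le_rpow hHr (by linarith)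
    rcases Nat.lt_or_ge (H₀ + H₁ + 1) H with hbig | hsmall
    · -- the large heights
      have hstep : F H ≤ F (H / 2) + C₁ * (H : ℝ) ^ s := by
        have h1 := h H (by omega)
        have hsub : {z : ι → ℤ | (∀ i, |z i| ≤ (H : ℤ)) ∧ ¬ Ce (Real.log (hgt z) ^ A) z} ⊆
            {z : ι → ℤ | (∀ i, |z i| ≤ ((H / 2 : ℕ) : ℤ)) ∧ ¬ Ce (Real.log (hgt z) ^ A) z} ∪
            {z : ι → ℤ | (∀ i, |z i| ≤ (H : ℤ)) ∧ ¬ Ce (Real.log H ^ A') z} := by
          rintro z ⟨h2, h3⟩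
          rcases Nat.lt_or_ge (H / 2) (hgt z) with h4 | h4
          · right
            refine ⟨h2, fun h5 => h3 (hCe _ _ z ?_ h5)⟩
            exact hlog H (hgt z) (by omega) (by omega)
          · left
            exact ⟨(hgt_le z _).1 h4, h3⟩
        have h5 := (Set.ncard_le_ncard hsub ((fin_hgt _ _).union (fin_hgt _ _))).trans (Set.ncard_union_le _ _)
        have h6 : F H ≤ F (H / 2) + ({z : ι → ℤ | (∀ i, |z i| ≤ (H : ℤ)) ∧ ¬ Ce (Real.log H ^ A') z}.ncard : ℝ) := by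
          rw [hF, hF]
          exact_mod_cast h5
        linarith
      have h7 := ih (H / 2) (by omega) (by omega)
      have h8 : ((H / 2 : ℕ) : ℝ) ^ s ≤ 3 / 4 * (H : ℝ) ^ s := by
        have h9 : ((H / 2 : ℕ) : ℝ) ≤ 1 / 2 * H := by
          have h10 : 2 * (H / 2) ≤ H := Nat.mul_div_le H 2
          have h11 : (2 : ℝ) * ((H / 2 : ℕ) : ℝ) ≤ H := by exact_mod_cast h10
          linarith
        calc ((H / 2 : ℕ) : ℝ) ^ s ≤ (1 / 2 * (H : ℝ)) ^ s :=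
              Real.rpow_le_rpow (Nat.cast_nonneg _) h9 (by linarith)
          _ = (1 / 2 : ℝ) ^ s * (H : ℝ) ^ s := Real.mul_rpow (by norm_num) (by linarith)
          _ ≤ 3 / 4 * (H : ℝ) ^ s := mul_le_mul_of_nonneg_right hhalf (by linarith)
      have h12 : C₁ ≤ |C₁| := le_abs_self _
      have h13 : 4 * |C₁| ≤ C₂ := by
        rw [hC₂]
        linarith [hF0 (H₀ + H₁ + 1)]
      have hHs0 : (0 : ℝ) ≤ (H : ℝ) ^ s := by linarith
      calc F H ≤ F (H / 2) + C₁ * (H : ℝ) ^ s := hstep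
        _ ≤ C₂ * ((H / 2 : ℕ) : ℝ) ^ s + C₁ * (H : ℝ) ^ s := by linarith
        _ ≤ C₂ * (3 / 4 * (H : ℝ) ^ s) + |C₁| * (H : ℝ) ^ s := by
            have g1 := mul_le_mul_of_nonneg_left h8 hC₂0
            have g2 := mul_le_mul_of_nonneg_right h12 hHs0
            linarith
        _ ≤ C₂ * (H : ℝ) ^ s := by
            have g3 : |C₁| * (H : ℝ) ^ s ≤ C₂ / 4 * (H : ℝ) ^ s :=
              mul_le_mul_of_nonneg_right (by linarith) hHs0
            linarith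
    · calc F H ≤ F (H₀ + H₁ + 1) := hmono _ _ hsmall
        _ ≤ C₂ := by
            rw [hC₂]
            linarith [abs_nonneg C₁]
        _ ≤ C₂ * (H : ℝ) ^ s := by nlinarith

end Pool.Agent.Zk77.Sko
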