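import Pool.Agent.H684R3.Smo.Done

/-!
# Families of integral vectors which are equidistributed modulo all small integers (helper77)

If the members `z i`, `i ∈ s`, of a finite family are equidistributed modulo all `q ≤ Z` with error `1 / Z`, then for all
but `|s| Z ^ (-δ)` of them there is a prime `p ≤ (log Z) ^ A` modulo which the member is in a given set `G p` of positive
density. After the tasks T3, T4, T5 of `Pool.Agent.H684R3.Smo` (the same for boxes).
-/

set_option autoImplicit false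

namespace Pool.Agent.Zk77.Sko

open Pool.Agent.H684R3.Smo Filter

section
variable {ι τ : Type} [Fintype ι] [DecidableEq ι]

/-- the members are equidistributed modulo all `q ≤ Q`, with error `E` -/
def Lev (E : ℝ) (Q : ℕ) (s : Finset τ) (z : τ → ι → ℤ) : Prop :=
  ∀ (q : ℕ) (F : (ι → ℤ) → ℝ), 0 < q → q ≤ Q → Per q F → (∀ v, |F v| ≤ 1) →
    |∑ i ∈ s, F (z i) - s.card * Av q F| ≤ E * s.card

theorem fam_term {s : Finset τ} {z : τ → ι → ℤ} {E : ℝ} {Q : ℕ} (hL : Lev E Q s z) (m K y : ℕ)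
    (e : Fin m × Fin K → ℕ) (he : Function.Injective e) (hp : ∀ x, (e x).Prime ∧ e x ≤ y)
    (X : Fin m × Fin K → (ι → ℤ) → ℝ) (hX : ∀ x, Per (e x) (X x)) (hX1 : ∀ x v, |X x v| ≤ 1)
    (hX0 : ∀ x, Av (e x) (X x) = 0) (hy : y ^ (2 * m) ≤ Q)
    (f : Fin m → Fin K × Fin K) :
    ∑ i ∈ s, ∏ j, (X (j, (f j).1) (z i) * X (j, (f j).2) (z i)) ≤
      (if ∀ j, (f j).1 = (f j).2 then (s.card : ℝ) else 0) + E * s.card := by
  classical
  set q : Fin m → ℕ := fun j => Task3.qq e j (f j) with hq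
  set F : Fin m → (ι → ℤ) → ℝ := fun j v => X (j, (f j).1) v * X (j, (f j).2) v with hF
  have hqpos : ∀ j, 0 < q j := by
    intro j
    simp only [hq, Task3.qq]
    split_ifs
    · exact (hp _).1.pos
    · exact Nat.mul_pos (hp _).1.pos (hp _).1.pos
  have hprime_cop : ∀ x x', x ≠ x' → Nat.Coprime (e x) (e x') := fun x x' hx =>
    (Nat.coprime_primes (hp x).1 (hp x').1).mpr fun h => hx (he h)
  have hcop : ∀ i j, i ≠ j → Nat.Coprime (q i) (q j) := by
    intro i j hij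
    have hc : ∀ a a', Nat.Coprime (e (i, a)) (e (j, a')) := fun a a' =>
      hprime_cop _ _ fun h => hij (congrArg Prod.fst h)
    simp only [hq, Task3.qq]
    split_ifs
    · exact hc _ _
    · exact Nat.Coprime.mul_right (hc _ _) (hc _ _)
    · exact Nat.Coprime.mul_left (hc _ _) (hc _ _)
    · exact Nat.Coprime.mul_left (Nat.Coprime.mul_right (hc _ _) (hc _ _))
        (Nat.Coprime.mul_right (hc _ _) (hc _ _))
  have hqy : ∀ j, q j ≤ y ^ 2 := by
    intro j
    simp only [hq, Task3.qq]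
    have hy1 : 1 ≤ y := (hp (j, (f j).1)).1.one_le.trans (hp (j, (f j).1)).2
    split_ifs
    · exact (hp _).2.trans (Nat.le_self_pow two_ne_zero y)
    · rw [pow_two]; exact Nat.mul_le_mul (hp _).2 (hp _).2
  have hd1 : ∀ j, e (j, (f j).1) ∣ q j := by
    intro j
    simp only [hq, Task3.qq]
    split_ifs
    · exact dvd_rfl
    · exact dvd_mul_right _ _
  have hd2 : ∀ j, e (j, (f j).2) ∣ q j := by
    intro j
    simp only [hq, Task3.qq]
    split_ifs with h
    · rw [h]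
    · exact dvd_mul_left _ _
  have hPer : ∀ j, Per (q j) (F j) := fun j =>
    Task3.Per.mul (Task3.Per.of_dvd (hX _) (hd1 j)) (Task3.Per.of_dvd (hX _) (hd2 j))
  have hF1 : ∀ j v, |F j v| ≤ 1 := by
    intro j v
    simp only [hF, abs_mul]
    exact mul_le_one₀ (hX1 _ _) (abs_nonneg _) (hX1 _ _)
  have hprodle : ∏ j, q j ≤ y ^ (2 * m) := by
    calc ∏ j, q j ≤ ∏ _j : Fin m, y ^ 2 := Finset.prod_le_prod' fun j _ => hqy j
      _ = y ^ (2 * m) := by simp [pow_mul]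
  have hprodpos : 0 < ∏ j, q j := Finset.prod_pos fun j _ => hqpos j
  have hPerAll : Per (∏ j, q j) (fun v => ∏ j, F j v) := by
    intro v w hv
    exact Finset.prod_congr rfl fun j _ =>
      (Task3.Per.of_dvd (hPer j) (Finset.dvd_prod_of_mem q (Finset.mem_univ j))) v w hv
  have hAll1 : ∀ v, |∏ j, F j v| ≤ 1 := by
    intro v
    rw [Finset.abs_prod]
    exact Finset.prod_le_one (fun _ _ => abs_nonneg _) fun j _ => hF1 j v
  have h1 := hL (∏ j, q j) (fun v => ∏ j, F j v) hprodpos (hprodle.trans hy) hPerAll hAll1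
  have h2 := t2 ι (Fin m) q F hqpos hcop hPer
  have hAv : Av (∏ j, q j) (fun v => ∏ j, F j v) ≤ if ∀ j, (f j).1 = (f j).2 then 1 else 0 := by
    rw [h2]
    split_ifs with h
    · refine (le_abs_self _).trans ?_
      rw [Finset.abs_prod]
      exact Finset.prod_le_one (fun _ _ => abs_nonneg _) fun j _ => Task3.av_le (hqpos j) (hF1 j)
    · push Not at h
      obtain ⟨j, hj⟩ := h
      have : Av (q j) (F j) = 0 := by
        have h3 := t2 ι Bool (fun c => if c then e (j, (f j).1) else e (j, (f j).2))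
          (fun c => if c then X (j, (f j).1) else X (j, (f j).2)) ?_ ?_ ?_
        · rw [Fintype.prod_bool, Fintype.prod_bool] at h3
          simp only [if_true, Bool.false_eq_true, if_false, hX0, mul_zero, Fintype.prod_bool] at h3
          simp only [hq, Task3.qq, if_neg hj, hF]
          exact h3
        · intro c
          cases c
          · simpa using (hp _).1.pos
          · simpa using (hp _).1.pos
        · intro c c' hcc
          have hne : ((j, (f j).1) : Fin m × Fin K) ≠ (j, (f j).2) := fun h => hj (by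
            simpa using congrArg Prod.snd h)
          cases c <;> cases c'
          · exact absurd rfl hcc
          · simpa using hprime_cop _ _ hne.symm
          · simpa using hprime_cop _ _ hne
          · exact absurd rfl hcc
        · intro c
          cases c
          · simpa using hX (j, (f j).2)
          · simpa using hX (j, (f j).1)
      rw [Finset.prod_eq_zero (Finset.mem_univ j) this]
  have hS : (0 : ℝ) ≤ s.card := Nat.cast_nonneg _
  have hb1 := (abs_le.mp h1).2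
  have hb3 : (s.card : ℝ) * Av (∏ j, q j) (fun v => ∏ j, F j v) ≤
      if ∀ j, (f j).1 = (f j).2 then (s.card : ℝ) else 0 := by
    calc _ ≤ (s.card : ℝ) *
          (if ∀ j, (f j).1 = (f j).2 then (1 : ℝ) else 0) := mul_le_mul_of_nonneg_left hAv hS
      _ = _ := by split_ifs <;> simp
  have hgoal : ∑ i ∈ s, ∏ j, (X (j, (f j).1) (z i) * X (j, (f j).2) (z i)) =
      ∑ i ∈ s, (fun v => ∏ j, F j v) (z i) := rfl
  rw [hgoal]
  linarith

theorem fam3 {s : Finset τ} {z : τ → ι → ℤ} {E : ℝ} {Q : ℕ} (hL : Lev E Q s z) (m K y : ℕ)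
    (e : Fin m × Fin K → ℕ) (he : Function.Injective e) (hp : ∀ x, (e x).Prime ∧ e x ≤ y)
    (X : Fin m × Fin K → (ι → ℤ) → ℝ) (hX : ∀ x, Per (e x) (X x)) (hX1 : ∀ x v, |X x v| ≤ 1)
    (hX0 : ∀ x, Av (e x) (X x) = 0) (hy : y ^ (2 * m) ≤ Q) :
    ∑ i ∈ s, ∏ j, (∑ k, X (j, k) (z i)) ^ 2 ≤ (s.card : ℝ) * (K : ℝ) ^ m + (K : ℝ) ^ (2 * m) * (E * s.card) := by
  classical
  have hexp : ∀ v, ∏ j, (∑ k, X (j, k) v) ^ 2 =
      ∑ f : Fin m → Fin K × Fin K, ∏ j, (X (j, (f j).1) v * X (j, (f j).2) v) := by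
    intro v
    have h1 : ∀ j : Fin m, (∑ k, X (j, k) v) ^ 2 =
        ∑ a : Fin K × Fin K, X (j, a.1) v * X (j, a.2) v := by
      intro j
      rw [pow_two, Finset.sum_mul_sum, Fintype.sum_prod_type]
    rw [Finset.prod_congr rfl fun j _ => h1 j, Finset.prod_univ_sum, Fintype.piFinset_univ]
  rw [Finset.sum_congr rfl fun i _ => hexp (z i), Finset.sum_comm]
  refine (Finset.sum_le_sum fun f _ => fam_term hL m K y e he hp X hX hX1 hX0 hy f).trans ?_
  rw [Finset.sum_add_distrib, ← Finset.sum_filter, Finset.sum_const, Finset.sum_const,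
    Task3.diag_card, nsmul_eq_mul, nsmul_eq_mul]
  have hc : (Finset.univ : Finset (Fin m → Fin K × Fin K)).card = K ^ (2 * m) := by
    simp [pow_mul, pow_two]
  rw [hc]
  push_cast
  rw [mul_comm ((K : ℝ) ^ m)]

open Classical in
theorem fam4 {s : Finset τ} {z : τ → ι → ℤ} {E : ℝ} {Q : ℕ} (hL : Lev E Q s z) (G : ∀ p : ℕ, Set (ι → ZMod p))
    (κ : ℝ) (hκ : 0 < κ) (m K y : ℕ) (e : Fin m × Fin K → ℕ) (he : Function.Injective e)
    (hG : ∀ x, (e x).Prime ∧ e x ≤ y ∧ κ * (e x : ℝ) ^ (Fintype.card ι) ≤ (Nat.card (G (e x)) : ℝ))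
    (hy : y ^ (2 * m) ≤ Q) :
    ((s.filter fun i => ∀ x, (fun j => (z i j : ZMod (e x))) ∉ G (e x)).card : ℝ) * (κ * K) ^ (2 * m) ≤
      (s.card : ℝ) * (K : ℝ) ^ m + (K : ℝ) ^ (2 * m) * (E * s.card) := by
  set D := Fintype.card ι with hD
  let γ : Fin m × Fin K → ℝ := fun x => (Nat.card (G (e x)) : ℝ) / (e x : ℝ) ^ D
  let X : Fin m × Fin K → (ι → ℤ) → ℝ := fun x v =>
    (if (fun i => (v i : ZMod (e x))) ∈ G (e x) then 1 else 0) - γ x
  have hpos : ∀ x, (0 : ℝ) < (e x : ℝ) ^ D := fun x => by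
    have := (hG x).1.pos
    positivity
  have hγ0 : ∀ x, κ ≤ γ x := fun x => by
    change κ ≤ (Nat.card (G (e x)) : ℝ) / (e x : ℝ) ^ D
    rw [le_div_iff₀ (hpos x)]
    exact (hG x).2.2
  have hγ1 : ∀ x, γ x ≤ 1 := fun x => by
    change (Nat.card (G (e x)) : ℝ) / (e x : ℝ) ^ D ≤ 1
    rw [div_le_one (hpos x)]
    have : NeZero (e x) := ⟨(hG x).1.ne_zero⟩
    have h1 : Nat.card (G (e x)) ≤ Nat.card (ι → ZMod (e x)) :=
      Finite.card_subtype_le _
    rw [Nat.card_fun, Nat.card_zmod, Nat.card_eq_fintype_card (α := ι)] at h1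
    exact_mod_cast h1
  have hPer : ∀ x, Per (e x) (X x) := by
    intro x v w hvw
    have h1 : (fun i => (v i : ZMod (e x))) = fun i => (w i : ZMod (e x)) := by
      funext i
      have h2 := hvw i
      rw [← ZMod.intCast_zmod_eq_zero_iff_dvd] at h2
      rw [Int.cast_sub, sub_eq_zero] at h2
      exact h2
    change (if (fun i => (v i : ZMod (e x))) ∈ G (e x) then (1 : ℝ) else 0) - γ x =
      (if (fun i => (w i : ZMod (e x))) ∈ G (e x) then (1 : ℝ) else 0) - γ x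
    rw [h1]
  have habs : ∀ x v, |X x v| ≤ 1 := by
    intro x v
    change |(if (fun i => (v i : ZMod (e x))) ∈ G (e x) then (1 : ℝ) else 0) - γ x| ≤ 1
    have h0 := hγ0 x
    have h1 := hγ1 x
    rw [abs_le]
    split_ifs <;> constructor <;> linarith
  have hAv : ∀ x, Av (e x) (X x) = 0 := by
    intro x
    have : NeZero (e x) := ⟨(hG x).1.ne_zero⟩
    rw [Av, div_eq_zero_iff]
    left
    have h1 := sum_residues (ι := ι) (e x)
      (fun z => (if z ∈ G (e x) then (1 : ℝ) else 0) - γ x)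
    have h2 : ∑ r ∈ Fintype.piFinset (fun _ : ι => Finset.Ico (0 : ℤ) (e x)), X x r =
        ∑ z : ι → ZMod (e x), ((if z ∈ G (e x) then (1 : ℝ) else 0) - γ x) := h1
    rw [h2, Finset.sum_sub_distrib, Finset.sum_const, Finset.card_univ, Fintype.card_fun,
      ZMod.card, Finset.sum_boole]
    have h3 : ((Finset.univ.filter fun z : ι → ZMod (e x) => z ∈ G (e x)).card : ℝ) =
        (Nat.card (G (e x)) : ℝ) := by
      rw [Nat.card_eq_fintype_card, ← Set.toFinset_card]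
      congr 2
      ext z
      simp
    rw [h3, nsmul_eq_mul]
    change (Nat.card (G (e x)) : ℝ) -
      ((e x ^ Fintype.card ι : ℕ) : ℝ) * ((Nat.card (G (e x)) : ℝ) / (e x : ℝ) ^ D) = 0
    rw [← hD, Nat.cast_pow, mul_div_cancel₀ _ (hpos x).ne', sub_self]
  refine le_trans ?_ (fam3 hL m K y e he (fun x => ⟨(hG x).1, (hG x).2.1⟩) X hPer habs hAv hy)
  rw [← nsmul_eq_mul]
  refine le_trans (Finset.card_nsmul_le_sum _
    (fun i => ∏ j, (∑ k, X (j, k) (z i)) ^ 2) _ ?_)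
    (Finset.sum_le_sum_of_subset_of_nonneg (Finset.filter_subset _ _) ?_)
  · intro v hv
    have hv2 := (Finset.mem_filter.1 hv).2
    have h1 : ∀ j : Fin m, (κ * K) ^ 2 ≤ (∑ k, X (j, k) (z v)) ^ 2 := by
      intro j
      have h2 : ∑ k, X (j, k) (z v) = - ∑ k, γ (j, k) := by
        rw [← Finset.sum_neg_distrib]
        refine Finset.sum_congr rfl fun k _ => ?_
        change (if (fun i => (z v i : ZMod (e (j, k)))) ∈ G (e (j, k)) then (1 : ℝ) else 0) -
          γ (j, k) = - γ (j, k)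
        rw [if_neg (hv2 (j, k)), zero_sub]
      rw [h2, neg_sq]
      have h3 : κ * K ≤ ∑ k, γ (j, k) := by
        have h4 : ∑ _k : Fin K, κ ≤ ∑ k, γ (j, k) := Finset.sum_le_sum fun k _ => hγ0 (j, k)
        rw [Finset.sum_const, Finset.card_univ, Fintype.card_fin, nsmul_eq_mul] at h4
        linarith
      exact pow_le_pow_left₀ (by positivity) h3 2
    calc (κ * K) ^ (2 * m) = ∏ _j : Fin m, (κ * K) ^ 2 := by
          rw [Finset.prod_const, Finset.card_univ, Fintype.card_fin, ← pow_mul]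
      _ ≤ ∏ j, (∑ k, X (j, k) (z v)) ^ 2 :=
          Finset.prod_le_prod (fun j _ => by positivity) fun j _ => h1 j
  · intro v _ _
    exact Finset.prod_nonneg fun j _ => sq_nonneg _

/-- The final estimate. -/
lemma fam_final (m K : ℕ) (C S E κ δ t : ℝ) (hκ : 0 < κ) (hK : 0 < K) (hS : 0 ≤ S)
    (hδ2 : δ ≤ 1 / 2) (ht : 0 < t) (hE : 2 * E ≤ Real.exp (-(5 / 8 * t)))
    (p2 : Real.exp (-(t / 8)) ≤ κ ^ (2 * m))
    (p3 : 2 * Real.exp (δ * t) ≤ (κ ^ 2 * K) ^ m)
    (hC : C * (κ * K) ^ (2 * m) ≤ S * (K : ℝ) ^ m + (K : ℝ) ^ (2 * m) * (E * S)) :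
    C ≤ S * Real.exp (-(δ * t)) := by
  have hKr : (0 : ℝ) < K := by exact_mod_cast hK
  have hpos : 0 < (κ * K) ^ (2 * m) := by positivity
  have hsplit : (κ * K) ^ (2 * m) = (κ ^ 2 * K) ^ m * (K : ℝ) ^ m := by
    rw [pow_mul, ← mul_pow]; congr 1; ring
  have hee : Real.exp (-(δ * t)) * Real.exp (δ * t) = 1 := by
    rw [← Real.exp_add]; simp
  have h1 : S * (K : ℝ) ^ m ≤ S * Real.exp (-(δ * t)) / 2 * (κ * K) ^ (2 * m) := by
    rw [hsplit]
    have h3 : 1 ≤ Real.exp (-(δ * t)) / 2 * (κ ^ 2 * K) ^ m := by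
      have h4 : Real.exp (-(δ * t)) / 2 * (2 * Real.exp (δ * t)) ≤
          Real.exp (-(δ * t)) / 2 * (κ ^ 2 * K) ^ m :=
        mul_le_mul_of_nonneg_left p3 (by positivity)
      linarith
    have h5 : 0 ≤ S * (K : ℝ) ^ m := by positivity
    calc S * (K : ℝ) ^ m = S * (K : ℝ) ^ m * 1 := by ring
      _ ≤ S * (K : ℝ) ^ m * (Real.exp (-(δ * t)) / 2 * (κ ^ 2 * K) ^ m) :=
        mul_le_mul_of_nonneg_left h3 h5
      _ = _ := by ring
  have h2 : (K : ℝ) ^ (2 * m) * (E * S) ≤ S * Real.exp (-(δ * t)) / 2 * (κ * K) ^ (2 * m) := by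
    have h3 : E ≤ Real.exp (-(δ * t)) / 2 * κ ^ (2 * m) := by
      have h6 : Real.exp (-(5 / 8 * t)) = Real.exp (-(t / 2)) * Real.exp (-(t / 8)) := by
        rw [← Real.exp_add]; congr 1; ring
      have h7 : Real.exp (-(t / 2)) * Real.exp (-(t / 8)) ≤ Real.exp (-(δ * t)) * κ ^ (2 * m) := by
        refine mul_le_mul ?_ p2 (by positivity) (by positivity)
        apply Real.exp_le_exp.2
        nlinarith
      linarith
    calc (K : ℝ) ^ (2 * m) * (E * S) ≤
          (K : ℝ) ^ (2 * m) * (Real.exp (-(δ * t)) / 2 * κ ^ (2 * m) * S) := by gcongr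
      _ = _ := by rw [mul_pow]; ring
  have h9 : C * (κ * K) ^ (2 * m) ≤ S * Real.exp (-(δ * t)) * (κ * K) ^ (2 * m) := by
    linarith
  exact le_of_mul_le_mul_right h9 hpos

end

open Classical in
theorem fam5 (ι : Type) [Fintype ι] [DecidableEq ι] (P : ℕ → Prop) (G : ∀ p : ℕ, Set (ι → ZMod p)) (κ θ A : ℝ)
    (hκ : 0 < κ) (hθ : 0 < θ) (hA : 0 < A) (hAθ : 1 < A * θ)
    (hP : ∀ p, P p → p.Prime ∧ κ * (p : ℝ) ^ (Fintype.card ι) ≤ (Nat.card (G p) : ℝ))
    (hN : ∃ y₀ : ℕ, ∀ y : ℕ, y₀ ≤ y → (y : ℝ) ^ θ ≤ (Nat.card {p : ℕ // P p ∧ p ≤ y} : ℝ)) :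
    ∃ δ : ℝ, 0 < δ ∧ ∃ t₀ : ℝ, ∀ t : ℝ, t₀ ≤ t → ∀ (τ : Type) (s : Finset τ) (z : τ → ι → ℤ) (E : ℝ) (Q : ℕ),
      Lev E Q s z → Real.exp (t / 8) ≤ Q → 2 * E ≤ Real.exp (-(5 / 8 * t)) →
      ((s.filter fun i => ∀ p, P p → (p : ℝ) ≤ t ^ A → (fun j => (z i j : ZMod p)) ∉ G p).card : ℝ) ≤
        s.card * Real.exp (-(δ * t)) := by
  obtain ⟨y₀, hy₀⟩ := hN
  set ε : ℝ := (A * θ - 1) / 2 with hε
  have hε0 : 0 < ε := by rw [hε]; linarith
  set η : ℝ := 1 / (16 * A) with hη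
  have hη0 : 0 < η := by positivity
  set δ : ℝ := min (ε * η / 8) (1 / 2) with hδ
  have hδ0 : 0 < δ := lt_min (by positivity) (by norm_num)
  have hev := t5_ev y₀ κ θ A ε η 0 hA hε0 hη0
  obtain ⟨t₀, ht₀⟩ := eventually_atTop.1 hev
  refine ⟨δ, hδ0, t₀, fun t ht τ s z E Q hL hQ hE => ?_⟩
  obtain ⟨c1, c2, c3, c4, c5, c6, c7, c8, -⟩ := ht₀ t ht
  have ht0 : 0 < t := lt_of_lt_of_le (Real.exp_pos 1) c1
  obtain ⟨m, K, y, hyt, hmK, hK, p1, p2, p3⟩ := t5_param y₀ κ θ A ε η δ t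
    (fun y => Nat.card {p : ℕ // P p ∧ p ≤ y}) hκ hθ hA hε0 (by rw [hε]; ring) hη
    (min_le_left _ _) hδ0 hy₀ c1 c2 c3 c4 c5 c6 c7 c8
  have hfin : Finite {p : ℕ // P p ∧ p ≤ y} :=
    (Set.Finite.subset (Set.finite_le_nat y) (fun p hp => hp.2) :
      ({p : ℕ | P p ∧ p ≤ y}).Finite).to_subtype
  obtain ⟨f⟩ : Nonempty (Fin m × Fin K ↪ {p : ℕ // P p ∧ p ≤ y}) := by
    have := Fintype.ofFinite {p : ℕ // P p ∧ p ≤ y}
    refine Function.Embedding.nonempty_of_card_le ?_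
    rw [Fintype.card_prod, Fintype.card_fin, Fintype.card_fin, ← Nat.card_eq_fintype_card]
    exact hmK
  have hyQ : y ^ (2 * m) ≤ Q := by
    have h1 := p1.trans hQ
    exact_mod_cast h1
  have hmain := fam4 hL G κ hκ m K y (fun x => ((f x : {p : ℕ // P p ∧ p ≤ y}) : ℕ))
    (Subtype.val_injective.comp f.injective)
    (fun x => ⟨(hP _ (f x).2.1).1, (f x).2.2, (hP _ (f x).2.1).2⟩) hyQ
  refine fam_final m K _ (s.card : ℝ) E κ δ t hκ hK (Nat.cast_nonneg _) (min_le_right _ _) ht0 hE p2 p3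
    (le_trans (mul_le_mul_of_nonneg_right ?_ (by positivity)) hmain)
  rw [Nat.cast_le]
  apply Finset.card_le_card
  intro i hi
  rw [Finset.mem_filter] at hi ⊢
  refine ⟨hi.1, fun x => hi.2 _ (f x).2.1 (le_trans ?_ hyt)⟩
  exact_mod_cast (f x).2.2

end Pool.Agent.Zk77.Sko
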