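import Pool.Agent.Zk77.Sko.Cnt
import Pool.Agent.H684R3.Smo.Done

/-!
# The inputs of the Skolem problem without certificates, counted by their height (helper77)
-/

set_option autoImplicit false

namespace Pool.Agent.Zk77.Sko

open Finset Filter
open Pool.Agent.H884R2.Sko Pool.Agent.H684R3.Smo

/-- a prime `p ≤ Y` modulo which the sequence has period `(p - 1) / 2` and no zero -/
def CertY {d : ℕ} (Y : ℝ) (c a : Fin d → ℤ) : Prop :=
  ∃ p : ℕ, p.Prime ∧ (p : ℝ) ≤ Y ∧ ∀ u, IsSeq c a u →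
    (∀ n, (p : ℤ) ∣ u (n + (p - 1) / 2) - u n) ∧ ∀ n, ¬ (p : ℤ) ∣ u n

lemma CertY.mono {d : ℕ} {Y Y' : ℝ} {c a : Fin d → ℤ} (h : Y ≤ Y') (hc : CertY Y c a) : CertY Y' c a := by
  obtain ⟨p, hp, hpY, h1⟩ := hc
  exact ⟨p, hp, hpY.trans h, h1⟩

/-- coefficients and initial values -/
theorem count_all (d : ℕ) (hd : 1 ≤ d) (A : ℝ) (hA : 1 < A) : ∃ δ : ℝ, 0 < δ ∧ δ ≤ 1 / 2 ∧ ∃ C : ℝ, ∀ H : ℕ, 1 ≤ H →
    ({z : Fin d ⊕ Fin d → ℤ | (∀ i, |z i| ≤ (H : ℤ)) ∧
      ¬ CertY (Real.log (hgt z) ^ A) (fun i => z (Sum.inl i)) (fun i => z (Sum.inr i))}.ncard : ℝ) ≤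
      C * (H : ℝ) ^ (2 * (d : ℝ) - δ) := by
  classical
  obtain ⟨δ, hδ, H₀, h⟩ := part1 h5 t6 t9 d hd ((1 + A) / 2) (by linarith)
  have : Nonempty (Fin d ⊕ Fin d) := ⟨Sum.inl ⟨0, by omega⟩⟩
  have hcard : (Fintype.card (Fin d ⊕ Fin d) : ℝ) = 2 * d := by
    rw [Fintype.card_sum, Fintype.card_fin]
    push_cast
    ring
  have key := count_hgt (ι := Fin d ⊕ Fin d)
    (fun Y z => CertY Y (fun i => z (Sum.inl i)) (fun i => z (Sum.inr i)))
    (fun Y Y' z hY hc => hc.mono hY) A ((1 + A) / 2) (by linarith) (by linarith) (min δ (1 / 2)) ((3 : ℝ) ^ (2 * d))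
    (lt_min hδ (by norm_num)) (min_le_right _ _) (H₀ + 1) (fun H hH => by
      have hH1 : (1 : ℝ) ≤ H := by exact_mod_cast (by omega : 1 ≤ H)
      have h1 := h H (by omega) 0 0
      have h2 : ({z : Fin d ⊕ Fin d → ℤ | (∀ i, |z i| ≤ (H : ℤ)) ∧
          ¬ CertY (Real.log H ^ ((1 + A) / 2)) (fun i => z (Sum.inl i)) (fun i => z (Sum.inr i))}.ncard : ℝ) ≤
          (((box 0 H ×ˢ box 0 H).filter (fun x : (Fin d → ℤ) × (Fin d → ℤ) =>
            ¬ Cert ((1 + A) / 2) H x.1 x.2)).card : ℝ) := by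
        rw [Nat.cast_le, ← Set.ncard_coe_finset]
        refine Set.ncard_le_ncard_of_injOn
          (fun z : Fin d ⊕ Fin d → ℤ => ((fun i => z (Sum.inl i), fun i => z (Sum.inr i)) :
            (Fin d → ℤ) × (Fin d → ℤ))) ?_ ?_ (Finset.finite_toSet _)
        · rintro z ⟨h3, h4⟩
          rw [mem_coe, mem_filter, mem_product, mem_box, mem_box]
          refine ⟨⟨fun i => ?_, fun i => ?_⟩, h4⟩
          · simpa using h3 (Sum.inl i)
          · simpa using h3 (Sum.inr i)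
        · intro z _ z' _ hzz
          have e1 := congrArg Prod.fst hzz
          have e2 := congrArg Prod.snd hzz
          funext i
          rcases i with i | i
          · exact congrFun e1 i
          · exact congrFun e2 i
      refine h2.trans (h1.trans ?_)
      rw [hcard]
      calc (2 * (H : ℝ) + 1) ^ (2 * d) * (H : ℝ) ^ (-δ) ≤ (3 * (H : ℝ)) ^ (2 * d) * (H : ℝ) ^ (-(min δ (1 / 2))) := by
            apply mul_le_mul
            · exact pow_le_pow_left₀ (by positivity) (by linarith) _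
            · exact Real.rpow_le_rpow_of_exponent_le hH1 (by linarith [min_le_left δ (1 / 2)])
            · positivity
            · positivity
        _ = (3 : ℝ) ^ (2 * d) * (H : ℝ) ^ (2 * (d : ℝ) - min δ (1 / 2)) := by
            rw [mul_pow, ← Real.rpow_natCast (H : ℝ) (2 * d), mul_assoc, ← Real.rpow_add (by linarith)]
            congr 2
            push_cast
            ring)
  obtain ⟨C, hC⟩ := key
  rw [hcard] at hC
  exact ⟨min δ (1 / 2), lt_min hδ (by norm_num), min_le_right _ _, C, hC⟩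

/-- initial values -/
theorem count_init (d : ℕ) (hd : 1 ≤ d) (c : Fin d → ℤ) (hc : c ⟨d - 1, by omega⟩ ≠ 0)
    (hsq : Squarefree ((charPoly c).map (Int.castRingHom ℚ))) :
    ∃ A δ : ℝ, 0 < A ∧ 0 < δ ∧ δ ≤ 1 / 2 ∧ ∃ C : ℝ, ∀ H : ℕ, 1 ≤ H →
    ({z : Fin d → ℤ | (∀ i, |z i| ≤ (H : ℤ)) ∧ ¬ CertY (Real.log (hgt z) ^ A) c z}.ncard : ℝ) ≤
      C * (H : ℝ) ^ ((d : ℝ) - δ) := by
  classical
  obtain ⟨A, δ, hA, hδ, H₀, h⟩ := part2 h5 t7 t8 d hd c hc hsq
  have : Nonempty (Fin d) := ⟨⟨0, by omega⟩⟩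
  have hcard : (Fintype.card (Fin d) : ℝ) = d := by rw [Fintype.card_fin]
  have key := count_hgt (ι := Fin d) (fun Y z => CertY Y c z)
    (fun Y Y' z hY hc => hc.mono hY) (A + 1) A hA.le (by linarith) (min δ (1 / 2)) ((3 : ℝ) ^ d)
    (lt_min hδ (by norm_num)) (min_le_right _ _) (H₀ + 1) (fun H hH => by
      have hH1 : (1 : ℝ) ≤ H := by exact_mod_cast (by omega : 1 ≤ H)
      have h1 := h H (by omega) 0
      have h2 : ({z : Fin d → ℤ | (∀ i, |z i| ≤ (H : ℤ)) ∧ ¬ CertY (Real.log H ^ A) c z}.ncard : ℝ) ≤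
          (((box 0 H).filter (fun a : Fin d → ℤ => ¬ Cert A H c a)).card : ℝ) := by
        rw [Nat.cast_le, ← Set.ncard_coe_finset]
        refine Set.ncard_le_ncard ?_ (Finset.finite_toSet _)
        rintro z ⟨h3, h4⟩
        rw [mem_coe, mem_filter, mem_box]
        refine ⟨fun i => ?_, h4⟩
        simpa using h3 i
      refine h2.trans (h1.trans ?_)
      rw [hcard]
      calc (2 * (H : ℝ) + 1) ^ d * (H : ℝ) ^ (-δ) ≤ (3 * (H : ℝ)) ^ d * (H : ℝ) ^ (-(min δ (1 / 2))) := by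
            apply mul_le_mul
            · exact pow_le_pow_left₀ (by positivity) (by linarith) _
            · exact Real.rpow_le_rpow_of_exponent_le hH1 (by linarith [min_le_left δ (1 / 2)])
            · positivity
            · positivity
        _ = (3 : ℝ) ^ d * (H : ℝ) ^ ((d : ℝ) - min δ (1 / 2)) := by
            rw [mul_pow, ← Real.rpow_natCast (H : ℝ) d, mul_assoc, ← Real.rpow_add (by linarith)]
            congr 2)
  obtain ⟨C, hC⟩ := key
  rw [hcard] at hC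
  exact ⟨A + 1, min δ (1 / 2), by linarith, lt_min hδ (by norm_num), min_le_right _ _, C, hC⟩

end Pool.Agent.Zk77.Sko
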