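import Pool.Agent.Zk77.Sko.Fam
import Pool.Agent.Zk77.Sko.Near

/-!
# The Skolem problem for all equidistributed families of inputs (helper77)
-/

set_option autoImplicit false

namespace Pool.Agent.Zk77.Sko

open Pool.Agent.H684R3.Smo Pool.Agent.H884R2.Sko Filter

open Classical in
/-- the members of the family are equidistributed modulo all `q ≤ Z`, with error `1 / Z` -/
def Equi {ι τ : Type} [Fintype ι] (Z : ℝ) (s : Finset τ) (z : τ → ι → ℤ) : Prop :=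
  ∀ q : ℕ, 1 ≤ q → (q : ℝ) ≤ Z → ∀ r : ι → ZMod q,
    |((s.filter fun i => ∀ j, (z i j : ZMod q) = r j).card : ℝ) - s.card / (q : ℝ) ^ Fintype.card ι| ≤ s.card / Z

/-- periodic functions on the members of the family -/
theorem lev_of_equi {ι τ : Type} [Fintype ι] [DecidableEq ι] {Z : ℝ} (hZ : 1 ≤ Z) {s : Finset τ} {z : τ → ι → ℤ}
    (h : Equi Z s z) (Q : ℕ) (hQ : (Q : ℝ) ≤ Z) : Lev ((Q : ℝ) ^ Fintype.card ι / Z) Q s z := by
  classical
  intro q F hq hqQ hF hF1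
  have : NeZero q := ⟨by omega⟩
  have hq0 : (0 : ℝ) < q := by exact_mod_cast hq
  have hZ0 : 0 < Z := by linarith
  obtain ⟨f, hf⟩ : ∃ f : (ι → ZMod q) → ℝ, f = fun ρ => F (fun j => ((ρ j).val : ℤ)) := ⟨_, rfl⟩
  have hFf : ∀ v : ι → ℤ, F v = f (fun j => (v j : ZMod q)) := by
    intro v
    rw [hf]
    apply hF
    intro j
    rw [← ZMod.intCast_zmod_eq_zero_iff_dvd]
    push_cast
    rw [ZMod.natCast_zmod_val, sub_self]
  have hf1 : ∀ ρ, |f ρ| ≤ 1 := fun ρ => by rw [hf]; exact hF1 _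
  have e1 : ∑ i ∈ s, F (z i) = ∑ ρ : ι → ZMod q, f ρ * ((s.filter fun i => ∀ j, (z i j : ZMod q) = ρ j).card : ℝ) := by
    rw [← Finset.sum_fiberwise_of_maps_to (s := s) (t := Finset.univ) (g := fun i => fun j => (z i j : ZMod q))
      (fun _ _ => Finset.mem_univ _)]
    refine Finset.sum_congr rfl fun ρ _ => ?_
    have e2 : ∀ i ∈ s.filter (fun i => (fun j => (z i j : ZMod q)) = ρ), F (z i) = f ρ := by
      intro i hi
      rw [hFf, (Finset.mem_filter.1 hi).2]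
    rw [Finset.sum_congr rfl e2, Finset.sum_const, nsmul_eq_mul, mul_comm]
    congr 3
    apply Finset.filter_congr
    intro i _
    exact funext_iff
  have e3 : Av q F = (∑ ρ : ι → ZMod q, f ρ) / (q : ℝ) ^ Fintype.card ι := by
    unfold Av
    congr 1
    rw [← sum_residues q f]
    exact Finset.sum_congr rfl fun r _ => hFf r
  rw [e1, e3]
  have e4 : (s.card : ℝ) * ((∑ ρ : ι → ZMod q, f ρ) / (q : ℝ) ^ Fintype.card ι) =
      ∑ ρ : ι → ZMod q, f ρ * (s.card / (q : ℝ) ^ Fintype.card ι) := by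
    rw [← Finset.sum_mul]
    ring
  rw [e4, ← Finset.sum_sub_distrib]
  calc |∑ ρ : ι → ZMod q, (f ρ * ((s.filter fun i => ∀ j, (z i j : ZMod q) = ρ j).card : ℝ) -
        f ρ * (s.card / (q : ℝ) ^ Fintype.card ι))|
      ≤ ∑ ρ : ι → ZMod q, |f ρ * ((s.filter fun i => ∀ j, (z i j : ZMod q) = ρ j).card : ℝ) -
        f ρ * (s.card / (q : ℝ) ^ Fintype.card ι)| := Finset.abs_sum_le_sum_abs _ _
    _ ≤ ∑ _ρ : ι → ZMod q, (s.card : ℝ) / Z := by
        refine Finset.sum_le_sum fun ρ _ => ?_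
        rw [← mul_sub, abs_mul]
        have h1 := h q hq (le_trans (by exact_mod_cast hqQ) hQ) ρ
        calc |f ρ| * |((s.filter fun i => ∀ j, (z i j : ZMod q) = ρ j).card : ℝ) -
              s.card / (q : ℝ) ^ Fintype.card ι| ≤ 1 * (s.card / Z) :=
              mul_le_mul (hf1 ρ) h1 (abs_nonneg _) zero_le_one
          _ = _ := one_mul _
    _ = (q : ℝ) ^ Fintype.card ι * (s.card / Z) := by
        rw [Finset.sum_const, Finset.card_univ, Fintype.card_fun, ZMod.card, nsmul_eq_mul]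
        push_cast
        rfl
    _ ≤ (Q : ℝ) ^ Fintype.card ι * (s.card / Z) := by
        have hqQ' : (q : ℝ) ≤ Q := Nat.cast_le.2 hqQ
        exact mul_le_mul_of_nonneg_right (pow_le_pow_left₀ (Nat.cast_nonneg _) hqQ' _)
          (div_nonneg (Nat.cast_nonneg _) hZ0.le)
    _ = _ := by ring

open Classical in
/-- **Equidistributed families.** -/
theorem fam_equi (ι : Type) [Fintype ι] [DecidableEq ι] (P : ℕ → Prop) (G : ∀ p : ℕ, Set (ι → ZMod p))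
    (κ θ A : ℝ) (hκ : 0 < κ) (hθ : 0 < θ) (hA : 0 < A) (hAθ : 1 < A * θ)
    (hP : ∀ p, P p → p.Prime ∧ κ * (p : ℝ) ^ (Fintype.card ι) ≤ (Nat.card (G p) : ℝ))
    (hN : ∃ y₀ : ℕ, ∀ y : ℕ, y₀ ≤ y → (y : ℝ) ^ θ ≤ (Nat.card {p : ℕ // P p ∧ p ≤ y} : ℝ)) :
    ∃ δ : ℝ, 0 < δ ∧ ∃ Z₀ : ℝ, ∀ Z : ℝ, Z₀ ≤ Z → ∀ (τ : Type) (s : Finset τ) (z : τ → ι → ℤ), Equi Z s z →
      ((s.filter fun i => ∀ p, P p → (p : ℝ) ≤ Real.log Z ^ A → (fun j => (z i j : ZMod p)) ∉ G p).card : ℝ) ≤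
        s.card * Z ^ (-δ) := by
  obtain ⟨δ, hδ, t₀, h⟩ := fam5 ι P G κ θ A hκ hθ hA hAθ hP hN
  obtain ⟨D, hD⟩ : ∃ D : ℕ, D = Fintype.card ι := ⟨_, rfl⟩
  have hD0 : (0 : ℝ) ≤ D := Nat.cast_nonneg _
  have hD1 : (0 : ℝ) < (D : ℝ) + 1 := by linarith
  refine ⟨δ / (D + 1), by positivity, Real.exp ((D + 1) * (max t₀ 0 + 8 * (D + 4))), fun Z hZ τ s z hE => ?_⟩
  have hZ0 : 0 < Z := lt_of_lt_of_le (Real.exp_pos _) hZ
  obtain ⟨t, ht⟩ : ∃ t : ℝ, t = Real.log Z / (D + 1) := ⟨_, rfl⟩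
  have hlogZ : Real.log Z = (D + 1) * t := by
    rw [ht]
    field_simp
  have ht1 : max t₀ 0 + 8 * (D + 4) ≤ t := by
    rw [ht, le_div_iff₀ hD1, mul_comm]
    rwa [Real.le_log_iff_exp_le hZ0]
  have htt : t₀ ≤ t := by
    have := le_max_left t₀ 0
    linarith
  have ht0 : 32 ≤ t := by
    have := le_max_right t₀ 0
    linarith
  have hZe : Z = Real.exp ((D + 1) * t) := by rw [← hlogZ, Real.exp_log hZ0]
  have hZ1 : 1 ≤ Z := by
    rw [hZe]
    apply Real.one_le_exp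
    positivity
  obtain ⟨Q, hQ⟩ : ∃ Q : ℕ, Q = ⌈Real.exp (t / 8)⌉₊ := ⟨_, rfl⟩
  have hQ1 : Real.exp (t / 8) ≤ Q := by rw [hQ]; exact Nat.le_ceil _
  have he1 : 1 ≤ Real.exp (t / 8) := Real.one_le_exp (by linarith)
  have hQ2 : (Q : ℝ) ≤ 2 * Real.exp (t / 8) := by
    have := Nat.ceil_lt_add_one (Real.exp_pos (t / 8)).le
    rw [← hQ] at this
    linarith
  have h2e : (2 : ℝ) ≤ Real.exp 1 := by
    have := Real.add_one_le_exp (1 : ℝ)
    linarith
  have hQ3 : (Q : ℝ) ≤ Real.exp (t / 8 + 1) := by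
    rw [Real.exp_add]
    calc (Q : ℝ) ≤ 2 * Real.exp (t / 8) := hQ2
      _ ≤ Real.exp 1 * Real.exp (t / 8) := mul_le_mul_of_nonneg_right h2e (Real.exp_pos _).le
      _ = _ := mul_comm _ _
  have hQZ : (Q : ℝ) ≤ Z := by
    refine hQ3.trans ?_
    rw [hZe]
    apply Real.exp_le_exp.2
    nlinarith
  have hL := lev_of_equi hZ1 hE Q hQZ
  rw [← hD] at hL
  have h1 := h t htt τ s z _ Q hL hQ1 (by
    rw [hZe]
    have g1 : (Q : ℝ) ^ D ≤ Real.exp ((t / 8 + 1) * D) := by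
      rw [mul_comm, Real.exp_nat_mul]
      exact pow_le_pow_left₀ (Nat.cast_nonneg _) hQ3 D
    calc 2 * ((Q : ℝ) ^ D / Real.exp ((D + 1) * t)) ≤
          Real.exp 1 * (Real.exp ((t / 8 + 1) * D) / Real.exp ((D + 1) * t)) := by
          apply mul_le_mul h2e _ (by positivity) (by positivity)
          exact div_le_div_of_nonneg_right g1 (Real.exp_pos _).le
      _ = Real.exp (1 + ((t / 8 + 1) * D - (D + 1) * t)) := by
          rw [← Real.exp_sub, ← Real.exp_add]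
      _ ≤ _ := by
          apply Real.exp_le_exp.2
          have : (0 : ℝ) ≤ D * t := by positivity
          nlinarith)
  have hexp : Real.exp (-(δ * t)) = Z ^ (-(δ / (D + 1))) := by
    rw [Real.rpow_def_of_pos hZ0, hlogZ]
    congr 1
    field_simp
  rw [← hexp]
  refine le_trans ?_ h1
  rw [Nat.cast_le]
  apply Finset.card_le_card
  intro i hi
  rw [Finset.mem_filter] at hi ⊢
  refine ⟨hi.1, fun p hp hpt => hi.2 p hp (hpt.trans ?_)⟩
  apply Real.rpow_le_rpow (by linarith) _ hA.le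
  rw [hlogZ]
  nlinarith

/-- permutations of the coordinates -/
theorem Equi.comp {ι τ : Type} [Fintype ι] {Z : ℝ} {s : Finset τ} {z : τ → ι → ℤ} (h : Equi Z s z) (e : ι ≃ ι) :
    Equi Z s (fun i j => z i (e j)) := by
  classical
  intro q hq hqZ r
  have h1 := h q hq hqZ (fun j => r (e.symm j))
  have e1 : (s.filter fun i => ∀ j, (z i (e j) : ZMod q) = r j) =
      s.filter fun i => ∀ j, (z i j : ZMod q) = r (e.symm j) := by
    apply Finset.filter_congr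
    intro i _
    constructor
    · intro h2 j
      have := h2 (e.symm j)
      rwa [e.apply_symm_apply] at this
    · intro h2 j
      have := h2 (e j)
      rwa [e.symm_apply_apply] at this
  rw [e1]
  exact h1

open Classical in
/-- **Certificates for equidistributed families of inputs.** -/
theorem fam_inputs (d : ℕ) (hd : 1 ≤ d) (A : ℝ) (hA : 1 < A) : ∃ δ : ℝ, 0 < δ ∧ ∃ Z₀ : ℝ, ∀ Z : ℝ, Z₀ ≤ Z →
    ∀ (τ : Type) (s : Finset τ) (z : τ → Fin d ⊕ Fin d → ℤ), Equi Z s z →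
      ((s.filter fun i => ¬ CertY (Real.log Z ^ A) (fun j => z i (Sum.inl j)) (fun j => z i (Sum.inr j))).card : ℝ) ≤
        s.card * Z ^ (-δ) := by
  obtain ⟨κ, hκ, hk⟩ := t6 d hd
  set θ : ℝ := (1 + 1 / A) / 2 with hθ
  have hA0 : 0 < A := by linarith
  have hinv : 1 / A < 1 := by rw [div_lt_one hA0]; exact hA
  have hinv0 : 0 < 1 / A := by positivity
  have hθ0 : 0 < θ := by rw [hθ]; positivity
  have hθ1 : θ < 1 := by rw [hθ]; linarith
  have hAθ : 1 < A * θ := by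
    rw [hθ]
    have : A * ((1 + 1 / A) / 2) = (A + 1) / 2 := by field_simp
    rw [this]; linarith
  obtain ⟨δ, hδ, Z₀, hmain⟩ := fam_equi (Fin d ⊕ Fin d) (fun p => p.Prime ∧ 4 * d ≤ p)
    (fun p => {v | GoodP (fun i => v (Sum.inl i)) (fun i => v (Sum.inr i))}) κ θ A hκ hθ0 hA0 hAθ
    (fun p hp => ⟨hp.1, hk p hp.1 hp.2⟩) (t9 θ (4 * d) hθ1)
  refine ⟨δ, hδ, Z₀, fun Z hZ τ s z hE => ?_⟩
  have h1 := hmain Z hZ τ s _ (hE.comp (Equiv.sumCongr Fin.revPerm (Equiv.refl (Fin d))))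
  refine le_trans ?_ h1
  rw [Nat.cast_le]
  apply Finset.card_le_card
  intro i hi
  rw [Finset.mem_filter] at hi ⊢
  refine ⟨hi.1, fun p hp hpA hG => hi.2 ⟨p, hp.1, hpA, fun u hu => ?_⟩⟩
  refine good_cert _ _ p ?_ u hu
  exact hG

open Classical in
/-- **Certificates for equidistributed families of initial values.** -/
theorem fam_inits (d : ℕ) (hd : 1 ≤ d) (c : Fin d → ℤ)
    (hc : c ⟨d - 1, by omega⟩ ≠ 0) (hsq : Squarefree ((charPoly c).map (Int.castRingHom ℚ))) :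
    ∃ A δ : ℝ, 0 < A ∧ 0 < δ ∧ ∃ Z₀ : ℝ, ∀ Z : ℝ, Z₀ ≤ Z →
    ∀ (τ : Type) (s : Finset τ) (z : τ → Fin d → ℤ), Equi Z s z →
      ((s.filter fun i => ¬ CertY (Real.log Z ^ A) c (z i)).card : ℝ) ≤ s.card * Z ^ (-δ) := by
  rw [charPoly_eq] at hsq
  have h0 : (chi (fun i => c (Fin.rev i))).coeff 0 ≠ 0 := by
    have := chi_coeff (fun i => c (Fin.rev i)) ⟨0, by omega⟩
    simp only at this
    rw [this, neg_ne_zero]
    have e : Fin.rev (⟨0, by omega⟩ : Fin d) = ⟨d - 1, by omega⟩ := by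
      apply Fin.ext
      rw [Fin.val_rev]
    rw [e]
    exact hc
  obtain ⟨g, p₀, hg, hgood⟩ := t7 d _ hd h0 hsq
  obtain ⟨K, hF, hNF, hK⟩ := splitField_one g hg
  obtain ⟨θ, hθ, y₀, hsup⟩ := @t8 K hF hNF
  set P : ℕ → Prop := fun p => (p.Prime ∧ p₀ ≤ p) ∧ (g.map (Int.castRingHom (ZMod p))).Splits
    with hP
  have hsupP : ∃ y₁ : ℕ, ∀ y : ℕ, y₁ ≤ y →
      (y : ℝ) ^ (θ / 2) ≤ (Nat.card {p : ℕ // P p ∧ p ≤ y} : ℝ) := by
    have hev : ∀ᶠ y : ℕ in Filter.atTop, (p₀ : ℝ) + 1 ≤ (y : ℝ) ^ (θ / 2) := by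
      have : Filter.Tendsto (fun y : ℕ => (y : ℝ) ^ (θ / 2)) Filter.atTop Filter.atTop :=
        (tendsto_rpow_atTop (by positivity)).comp tendsto_natCast_atTop_atTop
      exact this.eventually_ge_atTop _
    obtain ⟨y₂, hy₂⟩ := Filter.eventually_atTop.1 hev
    refine ⟨max y₀ y₂, fun y hy => ?_⟩
    have h1 := hsup y ((le_max_left _ _).trans hy)
    have h2 := hy₂ y ((le_max_right _ _).trans hy)
    have hfinP : Finite {p : ℕ // P p ∧ p ≤ y} :=
      Set.Finite.subset (Set.finite_Iic y) (fun p hp => hp.2)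
    have h3 : Nat.card {p : ℕ // (p.Prime ∧ @Pool.Agent.H692R2.USS.HasDegOne K hF hNF p) ∧ p ≤ y} ≤
        Nat.card {p : ℕ // P p ∧ p ≤ y} + p₀ := by
      have e : Nat.card ({p : ℕ // P p ∧ p ≤ y} ⊕ Fin p₀) =
          Nat.card {p : ℕ // P p ∧ p ≤ y} + p₀ := by
        rw [Nat.card_sum, Nat.card_eq_fintype_card (α := Fin p₀), Fintype.card_fin]
      rw [← e]
      apply Nat.card_le_card_of_injective (fun p : {p : ℕ // (p.Prime ∧ @Pool.Agent.H692R2.USS.HasDegOne K hF hNF p) ∧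
        p ≤ y} => if h : p.1 < p₀ then Sum.inr (⟨p.1, h⟩ : Fin p₀) else
          Sum.inl (⟨p.1, ⟨⟨p.2.1.1, not_lt.1 h⟩, hK p.1 p.2.1.1 p.2.1.2⟩, p.2.2⟩ :
            {p : ℕ // P p ∧ p ≤ y}))
      intro x x' h
      apply Subtype.ext
      simp only at h
      split_ifs at h with h4 h5 h5
      · simpa using h
      · simpa using h
    have h4 : ((Nat.card {p : ℕ // (p.Prime ∧ @Pool.Agent.H692R2.USS.HasDegOne K hF hNF p) ∧ p ≤ y} : ℕ) : ℝ) ≤
        (Nat.card {p : ℕ // P p ∧ p ≤ y} : ℝ) + p₀ := by exact_mod_cast h3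
    have h5 : (y : ℝ) ^ θ = (y : ℝ) ^ (θ / 2) * (y : ℝ) ^ (θ / 2) := by
      rcases Nat.eq_zero_or_pos y with rfl | hy0
      · rw [Nat.cast_zero, Real.zero_rpow hθ.ne', Real.zero_rpow (by positivity)]; ring
      · rw [← Real.rpow_add (by exact_mod_cast hy0)]; congr 1; ring
    have h6 : (0 : ℝ) ≤ (p₀ : ℝ) := by positivity
    nlinarith
  set A : ℝ := 4 / θ with hA
  have hA0 : 0 < A := by positivity
  have hAθ : 1 < A * (θ / 2) := by
    have : A * (θ / 2) = 2 := by rw [hA]; field_simp; norm_num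
    rw [this]; norm_num
  obtain ⟨δ, hδ, Z₀, hmain⟩ := fam_equi (Fin d) P
    (fun p => {a | GoodP (fun i => ((c (Fin.rev i) : ℤ) : ZMod p)) a}) (1 / 2) (θ / 2) A
    (by norm_num) (by positivity) hA0 hAθ
    (fun p hp => ⟨hp.1.1, hgood p hp.1.1 hp.1.2 hp.2⟩) hsupP
  refine ⟨A, δ, hA0, hδ, Z₀, fun Z hZ τ s z hE => ?_⟩
  refine le_trans ?_ (hmain Z hZ τ s z hE)
  rw [Nat.cast_le]
  apply Finset.card_le_card
  intro i hi
  rw [Finset.mem_filter] at hi ⊢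
  refine ⟨hi.1, fun p hp hpA hG => hi.2 ⟨p, hp.1.1, hpA, fun u hu => good_cert c (z i) p hG u hu⟩⟩

end Pool.Agent.Zk77.Sko
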